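import Mathlib
import Pool.Agent.R477.FC.Near2

/-!
# The Fermat-Catalan equation with bases in short intervals, or near powers of one number

There is an absolute `κ` such that for every `D` only finitely many value triples `(x ^ p, y ^ q, z ^ r)`,
`x ^ p + y ^ q = z ^ r`, with coprime `x`, `y`, `z` and arbitrary exponents `p, q, r ≥ 2` have the property
that for some integer `w ≥ 2` the three bases are, up to `w / (log w) ^ κ`, equal to powers `w ^ a`, `w ^ b`,
`w ^ c` with `1 ≤ a, b, c ≤ D`.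

For `D = 1` this says: there are only finitely many solutions whose three bases lie in an interval
`[w - w / (log w) ^ κ, w + w / (log w) ^ κ]`, for example `x, y, z ∈ {w, w + 1, …, w + k}` with `k ≤ w / (log w) ^ κ`.

Proof. Linear forms in two logarithms bound the exponents by a power of `log w`. The two largest terms,
say `x ^ p` and `z ^ r`, then satisfy `a p = c r`, and binomial expansion gives
`y ^ q = M w ^ K (1 + o(1))`, where `M` is `p |x - w ^ a|`, `r |z - w ^ c|` or `p (z - x)`, so that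
`2 ≤ M = o(w)`. This contradicts `y ^ q = w ^ (b q) (1 + o(1))`.
-/

set_option autoImplicit false

namespace Pool.Agent.Results.MP_509488_nt.BasesNearPowers

/-- the value triples `(x ^ p, y ^ q, z ^ r)` of the solutions of `x ^ p + y ^ q = z ^ r` in pairwise coprime
positive integers `x`, `y`, `z` with exponents `≥ 2` for which there are an integer `w ≥ 2` and
`1 ≤ a, b, c ≤ D` such that `|x - w ^ a|`, `|y - w ^ b|`, `|z - w ^ c|` are at most `w / (log w) ^ κ` -/
def Near (κ D : ℕ) : Set (ℕ × ℕ × ℕ) :=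
  {v | ∃ x y z p q r w a b c : ℕ, 0 < x ∧ 0 < y ∧ 0 < z ∧ Nat.Coprime x y ∧ Nat.Coprime x z ∧
    Nat.Coprime y z ∧ 2 ≤ p ∧ 2 ≤ q ∧ 2 ≤ r ∧ x ^ p + y ^ q = z ^ r ∧ v = (x ^ p, y ^ q, z ^ r) ∧
    2 ≤ w ∧ 1 ≤ a ∧ a ≤ D ∧ 1 ≤ b ∧ b ≤ D ∧ 1 ≤ c ∧ c ≤ D ∧
    |(x : ℝ) - (w : ℝ) ^ a| * Real.log w ^ κ ≤ w ∧ |(y : ℝ) - (w : ℝ) ^ b| * Real.log w ^ κ ≤ w ∧
    |(z : ℝ) - (w : ℝ) ^ c| * Real.log w ^ κ ≤ w}

theorem result : ∃ κ : ℕ, ∀ D : ℕ, (Near κ D).Finite :=
  Pool.Agent.R477.FC.near_main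

end Pool.Agent.Results.MP_509488_nt.BasesNearPowers
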