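import Mathlib
import Pool.Agent.R477.FC.Cong2

/-!
# The Fermat-Catalan equation with two bases congruent to `± 1` modulo the third one

For every `δ > 0` only finitely many value triples come from solutions with bases `x`, `y`, `z` (in any
order, all three exponents free) such that for some `d, e ≥ 1`
`y ^ d ≡ ± 1`, `z ^ e ≡ ± 1 (mod x)` and `y ^ d z ^ e ≤ x ^ (3 - δ)`,
where the exponent `p` of `x` is at least `3`, or `d = e = 1` and `y, z ≤ x ^ (2 - δ)`. In particular this holds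
for the solutions with `y ≡ ± 1`, `z ≡ ± 1 (mod x)` and `y, z ≤ x ^ (3/2 - δ)`.

Proof. Linear forms in two logarithms bound the exponents by a power of `log x`. Write
`± y ^ d = 1 + t`, `± z ^ e = 1 + s`, so that `(1 + s) ^ R ≡ (1 + t) ^ Q (mod x ^ p)` with small `R`, `Q`. If `p ≥ 3`,
the Padé approximation of `(1 + t) ^ (Q / R)` shows that `x ^ 3` divides
`R (2 R s - 2 Q t + (R - Q) s t)`, which is smaller than `x ^ 3` and hence zero; this gives `s = t`, against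
the coprimality of `y` and `z`. If `p = 2`, then `R s = Q t`, and the sizes of the terms do not fit.
-/

set_option autoImplicit false

namespace Pool.Agent.Results.MP_509488_nt.CongruentBases

/-- `x`, `y`, `z`, with the exponents `p`, `q`, `r`, are the bases of a solution of the Fermat-Catalan
equation: they are pairwise coprime and positive, `1/p + 1/q + 1/r < 1`, and one of the powers
`x ^ p`, `y ^ q`, `z ^ r` is the sum of the two others -/
def Bases (x y z p q r : ℕ) : Prop :=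
  0 < x ∧ 0 < y ∧ 0 < z ∧ Nat.Coprime x y ∧ Nat.Coprime x z ∧ Nat.Coprime y z ∧
    0 < p ∧ 0 < q ∧ 0 < r ∧ (1 : ℚ) / p + 1 / q + 1 / r < 1 ∧
    (x ^ p + y ^ q = z ^ r ∨ x ^ p + z ^ r = y ^ q ∨ y ^ q + z ^ r = x ^ p)

/-- `y ^ d ≡ ± 1` and `z ^ e ≡ ± 1` modulo `x` for some `d, e ≥ 1` with `y ^ d z ^ e ≤ x ^ (3 - δ)`, and
the exponent `p` of `x` is at least `3`, or `d = e = 1` and `y, z ≤ x ^ (2 - δ)` -/
def Congruent (δ : ℝ) (x y z p : ℕ) : Prop :=
  ∃ d e : ℕ, 0 < d ∧ 0 < e ∧ ((x : ℤ) ∣ (y : ℤ) ^ d - 1 ∨ (x : ℤ) ∣ (y : ℤ) ^ d + 1) ∧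
    ((x : ℤ) ∣ (z : ℤ) ^ e - 1 ∨ (x : ℤ) ∣ (z : ℤ) ^ e + 1) ∧
    ((y ^ d * z ^ e : ℕ) : ℝ) ≤ (x : ℝ) ^ (3 - δ) ∧
    (3 ≤ p ∨ (d = 1 ∧ e = 1 ∧ (y : ℝ) ≤ (x : ℝ) ^ (2 - δ) ∧ (z : ℝ) ≤ (x : ℝ) ^ (2 - δ)))

/-- The value triples `v = (A, B, C)`, `A + B = C`, of the solutions with bases `x`, `y`, `z` (in any order)
satisfying `Congruent` are finite in number. -/
theorem result (δ : ℝ) (hδ : 0 < δ) :
    {v : ℕ × ℕ × ℕ | v.1 + v.2.1 = v.2.2 ∧ ∃ x y z p q r : ℕ, Bases x y z p q r ∧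
      ({v.1, v.2.1, v.2.2} : Multiset ℕ) = {x ^ p, y ^ q, z ^ r} ∧ Congruent δ x y z p}.Finite :=
  Pool.Agent.R477.FC.cong_main δ hδ

end Pool.Agent.Results.MP_509488_nt.CongruentBases
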