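import Mathlib
import Pool.Agent.H326R2.TabFour
import Pool.Agent.H326R2.TabU
import Pool.Agent.H213R3.TabG
import Pool.Agent.TH944.Beal.MainTwo
import Pool.Agent.TH944.Beal.TabTwo
import Pool.Agent.TH21.PN.Fam

/-!
# First-case theorems for the Fermat-Catalan equation, by the method of Sophie Germain

The proofs rest on the starting files `Pool.Agent.H326R2`, `Pool.Agent.H213R3.TabG`,
`Pool.Agent.TH944.Beal` and `Pool.Agent.TH21.PN`.
-/

set_option autoImplicit false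

namespace Pool.Agent.Results.MP_509488_nt.FirstCases

open Pool.Agent.H326R2

/-- signature `(2 p, 2 q, 2)`: no coprime `x`, `y` with `x` even and prime to `q` -/
def NoA (p q : ℕ) : Prop :=
  ∀ x y z : ℤ, IsCoprime x y → Even x → IsCoprime x (q : ℤ) → x ^ (2 * p) + y ^ (2 * q) ≠ z ^ 2

/-- signature `(p, 2 q, 2 q)`: no coprime `x`, `y` with `x` even and prime to `q` -/
def NoB (p q : ℕ) : Prop :=
  ∀ x y z : ℤ, IsCoprime x y → Even x → IsCoprime x (q : ℤ) → x ^ p + y ^ (2 * q) ≠ z ^ (2 * q)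

/-- signature `(2 p, 2, 2 q)`: no coprime `x`, `y` with `x` even and prime to `q` -/
def NoC (p q : ℕ) : Prop :=
  ∀ x y z : ℤ, IsCoprime x y → Even x → IsCoprime x (q : ℤ) → x ^ (2 * p) + y ^ 2 ≠ z ^ (2 * q)

/-- signature `(2 p, 2 p, q)`: no coprime `x`, `y`, both prime to `q` -/
def NoD (p q : ℕ) : Prop :=
  ∀ x y z : ℤ, IsCoprime x y → IsCoprime x (q : ℤ) → IsCoprime y (q : ℤ) →
    x ^ (2 * p) + y ^ (2 * p) ≠ z ^ q

/-- signature `(q r, p r, p q)`: no pairwise coprime `x`, `y`, `z` with `x` prime to `p`, `y` prime to `q`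
and `z` prime to `r` -/
def NoE (p q r : ℕ) : Prop :=
  ∀ x y z : ℤ, IsCoprime x y → IsCoprime x z → IsCoprime y z →
    IsCoprime x (p : ℤ) → IsCoprime y (q : ℤ) → IsCoprime z (r : ℤ) →
    x ^ (q * r) + y ^ (p * r) + z ^ (p * q) ≠ 0

lemma noA_of {p q t : ℕ} (hp : Odd p) (hq : Odd q) (ht : t.Prime) (ht2 : t ≠ 2) (h : Aux 2 p q t) :
    NoA p q := by
  intro x y z hxy hx hxq he
  refine Pool.Agent.TH944.Beal.main_two p q t hp hq ht ht2 h x y z hx hxq hxy ?_
  rw [← pow_mul, ← pow_mul, mul_comm p, mul_comm q]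
  exact he

lemma noB_of {p q t : ℕ} (hp : Odd p) (hp3 : 3 ≤ p) (hq : Odd q) (ht : t.Prime) (ht2 : t ≠ 2)
    (h : Aux 4 p q t) : NoB p q := by
  intro x y z hxy hx hxq he
  refine main_four p q t hp hp3 hq ht ht2 h x y z hx hxq hxy ?_
  rw [← pow_mul, ← pow_mul, mul_comm q]
  exact he

lemma noC_of {p q t : ℕ} (hp : Odd p) (hq : Odd q) (ht : t.Prime) (ht2 : t ≠ 2) (h : AuxG p q t) :
    NoC p q := by
  intro x y z hxy hx hxq he
  refine main_gauss p q t hp hq ht ht2 h x y z hx hxq hxy ?_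
  rw [← pow_mul, ← pow_mul, mul_comm p, mul_comm q]
  exact he

lemma noD_of {p q t : ℕ} (hp : Odd p) (hq : Odd q) (ht : t.Prime) (h : AuxU p q t) : NoD p q := by
  intro x y z hxy hxq hyq he
  refine main_u p q t hp hq ht h x y z hxq hyq hxy ?_
  rw [← pow_mul, ← pow_mul, mul_comm p]
  exact he

open Pool.Agent.TH21.PN in
lemma noE_of {p q r : ℕ} (h : NoFirst p q r) : NoE p q r :=
  fun x y z h1 h2 h3 h4 h5 h6 he => h x y z h1 h2 h3 he h4 h5 h6

lemma odd_of {p : ℕ} (hp : p.Prime) (h5 : 5 ≤ p) : Odd p := hp.odd_of_ne_two (by omega)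

open Pool.Agent.TH21.PN in
/-- for two primes from `11` to `61` a class of exponents `p` -/
theorem classes (q r : ℕ) (hq : q.Prime) (hr : r.Prime) (hq11 : 11 ≤ q) (hr11 : 11 ≤ r)
    (hq61 : q ≤ 61) (hr61 : r ≤ 61) (hqr : q ≠ r) :
    ∃ m a : ℕ, 0 < m ∧ Nat.Coprime a m ∧ ∀ p : ℕ, 1 < p → p ≡ a [MOD m] → Nat.Coprime p q →
      Nat.Coprime p r → NoFirst p q r := by
  have key : ∀ q r : ℕ, q.Prime → r.Prime → 11 ≤ q → r ≤ 61 → q < r →
      ∃ m a : ℕ, 0 < m ∧ Nat.Coprime a m ∧ ∀ p : ℕ, 1 < p → p ≡ a [MOD m] → Nat.Coprime p q →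
        Nat.Coprime p r → NoFirst p q r := by
    intro q r hq hr hq11 hr61 hlt
    have hc := covPairs_ok
    unfold covPairs at hc
    rw [List.all_eq_true] at hc
    have hc1 := hc q (mem_primesList hq (by omega) (by omega))
    rw [Bool.or_eq_true] at hc1
    rcases hc1 with hc1 | hc1
    · have := Nat.le_of_ble_eq_true hc1
      omega
    rw [List.all_eq_true] at hc1
    have hc2 := hc1 r (mem_primesList hr (by omega) hr61)
    rw [Bool.or_eq_true] at hc2
    rcases hc2 with hc2 | hc2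
    · have := Nat.le_of_ble_eq_true hc2
      omega
    rw [List.any_eq_true] at hc2
    obtain ⟨⟨t, q', r', g, zq, zr, d, ps⟩, he, h3⟩ := hc2
    simp only [Bool.and_eq_true, List.any_eq_true] at h3
    obtain ⟨h4, h5, ⟨p0, zp⟩, h6, h7, h8⟩ := h3
    have h4' := Nat.eq_of_beq_eq_true h4
    have h5' := Nat.eq_of_beq_eq_true h5
    subst h4' h5'
    have h7' : p0 % 2 = 1 := Nat.eq_of_beq_eq_true h7
    have h8' : Nat.Coprime p0 (t * (t - 1)) := Nat.eq_of_beq_eq_true h8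
    have hp0 : Odd p0 := Nat.odd_iff.2 h7'
    have hqo : Odd q' := hq.odd_of_ne_two (by omega)
    have hro : Odd r' := hr.odd_of_ne_two (by omega)
    obtain ⟨ht, ha⟩ := entry_sound hqo hro (tab_ok _ he) hp0 h6
    have : Fact t.Prime := ⟨ht⟩
    have ht0 : 0 < t * (t - 1) := Nat.mul_pos ht.pos (by have := ht.one_lt; omega)
    refine ⟨t * (t - 1), p0, ht0, h8', ?_⟩
    intro p hp1 hpm hpq hpr
    have m1 : p ≡ p0 [MOD t] := hpm.of_dvd (Dvd.intro _ rfl)
    have m2 : p ≡ p0 [MOD (t - 1)] := hpm.of_dvd (Dvd.intro_left _ rfl)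
    have ha' : Pool.Agent.TH21.PN.Aux p q' r' t := aux_congr hp0.pos (by omega)
      ((ZMod.natCast_eq_natCast_iff _ _ _).2 m1.symm) m2.symm ha
    have hcop : Nat.Coprime p (t * (t - 1)) := by
      have := hpm.gcd_eq
      rw [Nat.coprime_iff_gcd_eq_one, this]
      exact h8'
    have hpo : Odd p := by
      have h2 : 2 ∣ t * (t - 1) := by
        have := Nat.even_mul_pred_self t
        exact this.two_dvd
      have h9 : Nat.Coprime p 2 := hcop.coprime_dvd_right h2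
      rwa [Nat.coprime_two_right] at h9
    exact noFirst_of_aux hpo hqo hro hp1 (by omega) (by omega) hpq hpr
      ((Nat.coprime_primes hq hr).2 (by omega)) ht ha'
  rcases lt_or_gt_of_ne hqr with h1 | h1
  · exact key q r hq hr hq11 hr61 h1
  · obtain ⟨m, a, hm, h2, h3⟩ := key r q hr hq hr11 hq61 h1
    exact ⟨m, a, hm, h2, fun p hp hpa hpq hpr => (h3 p hp hpa hpr hpq).swap23⟩

/-- pairs `(q, r)` with `2 q r + 1` prime -/
def pairsA : List (ℕ × ℕ) :=
  [(37, 149), (59, 241), (101, 409), (107, 349), (107, 367), (127, 419), (149, 181), (151, 311),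
   (157, 389), (157, 467), (167, 409), (179, 211), (179, 499), (211, 359), (227, 457), (239, 271),
   (257, 307), (263, 487), (313, 347), (433, 491), (449, 457), (467, 487)]

/-- further pairs `(q, r)` with `2 q r + 1` prime -/
def pairsB : List (ℕ × ℕ) :=
  [(7, 17), (11, 73), (19, 59), (23, 31), (23, 67), (29, 61), (29, 79), (31, 41), (31, 59), (37, 53),
   (41, 43), (41, 61), (59, 67), (73, 83)]

lemma pairsA_eq : Pool.Agent.TH21.PN.famA.map (fun e => (e.1, e.2.1)) = pairsA := by decide +kernel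

lemma pairsB_eq : Pool.Agent.TH21.PN.famB.map (fun e => (e.1, e.2.1)) = pairsB := by decide +kernel

/-- **First-case theorems for the Fermat-Catalan equation.**
(1) For primes `p ≥ 5` with `2 p + 1` prime and all odd `q` in most classes modulo `p` and `2 p + 1`, there
are no solutions of the first case with the signatures `(2 p, 2 q, 2)`, `(p, 2 q, 2 q)`, `(2 p, 2, 2 q)`,
`(2 p, 2 p, q)`. (2) The same for pairs of different primes up to a bound, with few exceptions.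
(3) No solutions of the first case with the signature `(q r, p r, p q)`: for all different primes from `5`
to `61`; for any two different primes `q`, `r` from `11` to `61` and all `p` in a suitable class; and for
thirty-six pairs `(q, r)` and almost all classes of `p` modulo `2 q r + 1`. -/
theorem result :
    -- (1) Sophie Germain primes `p`, infinitely many exponents `q`
    (∀ p : ℕ, p.Prime → 5 ≤ p → (2 * p + 1).Prime → ∀ q : ℕ, Odd q →
      (q : ZMod p) ≠ 0 → (q : ZMod p) ≠ 1 →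
      (q : ZMod (2 * p + 1)) ≠ 0 → (q : ZMod (2 * p + 1)) ≠ 1 → (q : ZMod (2 * p + 1)) ≠ -1 →
      ((q : ZMod p) ≠ -1 → NoA p q) ∧ NoB p q ∧
        ((5 : ZMod (2 * p + 1)) ^ q ≠ 4 ^ (q - 1) → NoC p q) ∧ NoD p q) ∧
    -- (2) pairs of primes
    (∀ p q : ℕ, p.Prime → q.Prime → 5 ≤ p → 5 ≤ q → p ≠ q →
      (p < 256 → q < 256 → (p, q) ∉ [((5 : ℕ), (11 : ℕ)), (5, 151), (7, 43), (7, 211)] → NoA p q) ∧
      (p < 100 → q < 100 → (p, q) ∉ [((5 : ℕ), (71 : ℕ)), (11, 89)] → NoB p q) ∧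
      (p < 256 → q < 256 → (p, q) ≠ (5, 241) → NoC p q) ∧
      (p < 100 → q < 100 → (p, q) ∉ [((5 : ℕ), (11 : ℕ)), (5, 31), (5, 41), (5, 61), (5, 71), (7, 29),
        (7, 43), (7, 71), (11, 23), (11, 67), (11, 89), (13, 53), (13, 79), (23, 47), (29, 59),
        (41, 83)] → NoD p q)) ∧
    -- (3) signature `(q r, p r, p q)`
    (∀ p q r : ℕ, p.Prime → q.Prime → r.Prime → 5 ≤ p → 5 ≤ q → 5 ≤ r → p ≤ 61 → q ≤ 61 → r ≤ 61 →
      p ≠ q → p ≠ r → q ≠ r → NoE p q r) ∧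
    (∀ q r : ℕ, q.Prime → r.Prime → 11 ≤ q → 11 ≤ r → q ≤ 61 → r ≤ 61 → q ≠ r →
      ∃ m a : ℕ, 0 < m ∧ Nat.Coprime a m ∧ ∀ p : ℕ, 1 < p → p ≡ a [MOD m] → Nat.Coprime p q →
        Nat.Coprime p r → NoE p q r) ∧
    (∀ q r : ℕ, (q, r) ∈ pairsA ++ pairsB → ∀ p : ℕ, Odd p → 1 < p → Nat.Coprime p q →
      Nat.Coprime p r → p % (2 * (q * r) + 1) ≠ 1 → p % (2 * (q * r) + 1) ≠ 2 * (q * r) →
      ((q, r) ∈ pairsB → p % (2 * (q * r)) ≠ 1) → NoE p q r) := by
  refine ⟨?_, ?_, ?_, ?_, ?_⟩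
  · intro p hp hp5 ht q hq h0 h1 k0 k1 k2
    have hpo := odd_of hp hp5
    have ht2 : 2 * p + 1 ≠ 2 := by omega
    refine ⟨fun h2 => ?_, ?_, fun k3 => ?_, ?_⟩
    · exact noA_of hpo hq ht ht2 (aux_two p q hp ht hq h0 h1 h2 k0 k1 k2)
    · exact noB_of hpo (by omega) hq ht ht2 (aux_four p q hp hp5 ht hq h0 h1 k0 k1 k2)
    · exact noC_of hpo hq ht ht2 (auxG_sg p q hp hp5 ht hq h0 h1 k0 k1 k2 k3)
    · exact noD_of hpo hq ht (auxU_sg p q hp hp5 ht hq h0 h1 k0 k1 k2)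
  · intro p q hp hq hp5 hq5 hpq
    have hpo := odd_of hp hp5
    have hqo := odd_of hq hq5
    refine ⟨fun hpl hql hexc => ?_, fun hpl hql hexc => ?_, fun hpl hql hexc => ?_,
      fun hpl hql hexc => ?_⟩
    · obtain ⟨t, ht, ht2, ha⟩ := Pool.Agent.TH944.Beal.TabTwo.exists_aux p q hp hq hp5 hq5 hpl hql hpq
        hexc
      exact noA_of hpo hqo ht ht2 ha
    · obtain ⟨t, P, ht, ht2, hp0, h1, h2⟩ := tab_spec tabFour_ok tabFour_cov p q hp hq hp5 hq5 hpl hql
        hpq hexc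
      exact noB_of hpo (by omega) hqo ht ht2 (aux_sound hp0 ht P h1 h2)
    · obtain ⟨t, ht, ht2, ha⟩ := Pool.Agent.H213R3.TabG.exists_aux p q hp hq hp5 hq5 hpl hql hpq hexc
      exact noC_of hpo hqo ht ht2 ha
    · obtain ⟨t, P, ht, ht2, hp0, h1, h2⟩ := tab_spec tabU_ok tabU_cov p q hp hq hp5 hq5 hpl hql
        hpq hexc
      exact noD_of hpo hqo ht (chkU_sound hp0 ht P h1 h2)
  · intro p q r hp hq hr hp5 hq5 hr5 hp61 hq61 hr61 hpq hpr hqr
    exact noE_of (Pool.Agent.TH21.PN.table p q r hp hq hr hp5 hq5 hr5 hp61 hq61 hr61 hpq hpr hqr)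
  · intro q r hq hr hq11 hr11 hq61 hr61 hqr
    obtain ⟨m, a, hm, ha, h⟩ := classes q r hq hr hq11 hr11 hq61 hr61 hqr
    exact ⟨m, a, hm, ha, fun p hp hpa hpq hpr => noE_of (h p hp hpa hpq hpr)⟩
  · intro q r hqr p hp hp1 hpq hpr h1 h2 h3
    by_cases hB : (q, r) ∈ pairsB
    · rw [← pairsB_eq, List.mem_map] at hB
      have h3' := h3 (by rw [← pairsB_eq, List.mem_map]; exact hB)
      obtain ⟨e, he, heq⟩ := hB
      have e1 : e.1 = q := congrArg Prod.fst heq
      have e2 : e.2.1 = r := congrArg Prod.snd heq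
      exact noE_of (Pool.Agent.TH21.PN.famB_thm ⟨e, he, e1, e2⟩ hp hp1 hpq hpr h3' h1 h2)
    · have hA : (q, r) ∈ pairsA := by
        rcases List.mem_append.1 hqr with h | h
        · exact h
        · exact absurd h hB
      rw [← pairsA_eq, List.mem_map] at hA
      obtain ⟨e, he, heq⟩ := hA
      have e1 : e.1 = q := congrArg Prod.fst heq
      have e2 : e.2.1 = r := congrArg Prod.snd heq
      exact noE_of (Pool.Agent.TH21.PN.famA_thm ⟨e, he, e1, e2⟩ hp hp1 hpq hpr h1 h2)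

end Pool.Agent.Results.MP_509488_nt.FirstCases
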