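import Pool.Agent.R437.FC.Count
import Pool.Agent.R485.AN.Pow

/-!
# Solutions of the generalised Fermat equation with a divisor near a power of a real number

Let `v n` be real exponents such that the sums of `exp (-t v n)` converge for all `t > 0`, for
instance `v n = n` (all powers of `α`, in particular also the numbers `α ^ (3 ^ n)` of Mills) or
`v n = n ^ δ` with a small `δ > 0`.

We consider the equations `a x ^ l + b y ^ m = c z ^ n` between positive integers, where ALL of the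
exponents `l, m, n ≥ 2` vary, and a divisor `d` of the product of the three terms (for instance one of
the terms) with `c z ^ n ≤ d ^ A`.  For all `α > 1` outside a set of Hausdorff dimension zero there is
for all `A` and `θ < 1` a number `R` such that only finitely many such equations have a divisor
`d` with `|d - α ^ (v k)| ≤ α ^ (θ v k)` for some `k`, an exponent `≥ R` and coefficients `a`, `b`, `c`
with radicals at most `d ^ (1 / R)`.  The terms need not be coprime.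

Together with the theorem of Darmon and Granville (for fixed exponents with
`1 / p + 1 / q + 1 / r < 1` there are only finitely many coprime solutions) this gives the
Fermat-Catalan conjecture for all the solutions `x ^ p + y ^ q = z ^ r` such that `x ^ p y ^ q z ^ r`
has a divisor `d` as above, `z ^ r ≤ d ^ A`, for all `α > 1` outside a set of Hausdorff dimension zero.
-/

set_option autoImplicit false

namespace Pool.Agent.Results.MP_509488_nt.SolutionsNearPowers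

open Finset Filter Topology

/-- the product of the primes dividing `n` -/
def rad (n : ℕ) : ℕ := ∏ p ∈ n.primeFactors, p

/-- the sums of `exp (-t v n)` converge for all `t > 0` -/
def Thin (v : ℕ → ℝ) : Prop := ∀ t : ℝ, 0 < t → Summable fun n : ℕ => Real.exp (-(t * v n))

/-- the positive integers in one of the windows `|d - α ^ (v k)| ≤ α ^ (θ v k)` -/
def Near (v : ℕ → ℝ) (α θ : ℝ) : Set ℕ :=
  {d : ℕ | 0 < d ∧ ∃ k : ℕ, |(d : ℝ) - α ^ (v k)| ≤ (α ^ (v k)) ^ θ}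

/-- the triples of values `(a x ^ l, b y ^ m, c z ^ n)` of the equations
`a x ^ l + b y ^ m = c z ^ n` between positive integers with `l, m, n ≥ 2`, one of the exponents at
least `R`, for which there is a divisor `d` in `W` of the product of the three terms such that
`c z ^ n ≤ d ^ A` and such that the radicals of `a`, `b`, `c` are at most `d ^ (1 / R)` -/
def Solutions (R : ℕ) (A : ℝ) (W : Set ℕ) : Set (ℕ × ℕ × ℕ) :=
  {t | ∃ d ∈ W, ∃ a b c x y z l m n : ℕ, (0 < a ∧ 0 < b ∧ 0 < c ∧ 0 < x ∧ 0 < y ∧ 0 < z) ∧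
    (2 ≤ l ∧ 2 ≤ m ∧ 2 ≤ n) ∧ (R ≤ l ∨ R ≤ m ∨ R ≤ n) ∧
    ((rad a : ℝ) ≤ (d : ℝ) ^ (1 / (R : ℝ)) ∧ (rad b : ℝ) ≤ (d : ℝ) ^ (1 / (R : ℝ)) ∧
      (rad c : ℝ) ≤ (d : ℝ) ^ (1 / (R : ℝ))) ∧
    t = (a * x ^ l, b * y ^ m, c * z ^ n) ∧ t.1 + t.2.1 = t.2.2 ∧ d ∣ t.1 * t.2.1 * t.2.2 ∧
    (t.2.2 : ℝ) ≤ (d : ℝ) ^ A}

/-- the triples of values `(x ^ p, y ^ q, z ^ r)` of the equations `x ^ p + y ^ q = z ^ r` between
positive integers without common divisor, `p, q, r ≥ 2` and `1 / p + 1 / q + 1 / r < 1`, for which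
there is a divisor `d` in `W` of `x ^ p y ^ q z ^ r` such that `z ^ r ≤ d ^ A` -/
def FermatCatalan (A : ℝ) (W : Set ℕ) : Set (ℕ × ℕ × ℕ) :=
  {t | ∃ d ∈ W, ∃ x y z p q r : ℕ, 0 < x ∧ 0 < y ∧ 0 < z ∧ Nat.gcd x (Nat.gcd y z) = 1 ∧
    2 ≤ p ∧ 2 ≤ q ∧ 2 ≤ r ∧ (1 : ℚ) / p + 1 / q + 1 / r < 1 ∧
    t = (x ^ p, y ^ q, z ^ r) ∧ t.1 + t.2.1 = t.2.2 ∧ d ∣ t.1 * t.2.1 * t.2.2 ∧
    (t.2.2 : ℝ) ≤ (d : ℝ) ^ A}

/-- The theorem of Darmon and Granville for the equation `x ^ p + y ^ q = z ^ r` with fixed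
exponents. -/
def DarmonGranville : Prop :=
  ∀ p q r : ℕ, 2 ≤ p → 2 ≤ q → 2 ≤ r → (1 : ℚ) / p + 1 / q + 1 / r < 1 →
    {u : ℕ × ℕ × ℕ | 0 < u.1 ∧ 0 < u.2.1 ∧ 0 < u.2.2 ∧ Nat.gcd u.1 (Nat.gcd u.2.1 u.2.2) = 1 ∧
      u.1 ^ p + u.2.1 ^ q = u.2.2 ^ r}.Finite

open Pool.Agent.R437.FC (Hit)

lemma hit_of {R : ℕ} {A : ℝ} {W : Set ℕ} {t : ℕ × ℕ × ℕ} (h : t ∈ Solutions R A W) :
    ∃ d ∈ W, Hit R A d ∧ t.1 ≤ t.2.2 ∧ t.2.1 ≤ t.2.2 ∧ (t.2.2 : ℝ) ≤ (d : ℝ) ^ A := by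
  obtain ⟨d, hd, a, b, c, x, y, z, l, m, n, h0, h1, h2, h3, rfl, h4, h5, h6⟩ := h
  exact ⟨d, hd, ⟨a, b, c, x, y, z, l, m, n, h0, h1, h2, h3, h4, h5, h6⟩, by omega, by omega, h6⟩

/-- finitely many triples if the divisors are bounded -/
lemma finite_of_bdd {S : Set (ℕ × ℕ × ℕ)} {A : ℝ} {B : ℕ}
    (h : ∀ t ∈ S, ∃ d : ℕ, 0 < d ∧ d ≤ B ∧ t.1 ≤ t.2.2 ∧ t.2.1 ≤ t.2.2 ∧
      (t.2.2 : ℝ) ≤ (d : ℝ) ^ A) : S.Finite := by
  obtain ⟨N, hN⟩ := exists_nat_ge (((B : ℝ) + 1) ^ |A|)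
  refine Set.Finite.subset ((Set.finite_Iic N).prod ((Set.finite_Iic N).prod (Set.finite_Iic N))) ?_
  intro t ht
  obtain ⟨d, hd0, hdB, h1, h2, h3⟩ := h t ht
  have hd1 : (1 : ℝ) ≤ d := by exact_mod_cast hd0
  have hdB' : (d : ℝ) ≤ (B : ℝ) + 1 := by
    have : (d : ℝ) ≤ B := by exact_mod_cast hdB
    linarith
  have h4 : (t.2.2 : ℝ) ≤ N := by
    calc (t.2.2 : ℝ) ≤ (d : ℝ) ^ A := h3
      _ ≤ (d : ℝ) ^ |A| := Real.rpow_le_rpow_of_exponent_le hd1 (le_abs_self A)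
      _ ≤ ((B : ℝ) + 1) ^ |A| := Real.rpow_le_rpow (by linarith) hdB' (abs_nonneg A)
      _ ≤ N := hN
  have h5 : t.2.2 ≤ N := by exact_mod_cast h4
  exact ⟨h1.trans h5, h2.trans h5, h5⟩

/-- the divisors in the first windows are bounded -/
lemma bdd_windows (v : ℕ → ℝ) (α θ : ℝ) (K : ℕ) : ∃ B : ℕ, ∀ k < K, ∀ d : ℕ,
    |(d : ℝ) - α ^ (v k)| ≤ (α ^ (v k)) ^ θ → d ≤ B := by
  refine ⟨(Finset.range K).sup fun k => ⌈α ^ (v k) + (α ^ (v k)) ^ θ⌉₊, fun k hk d hd => ?_⟩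
  have h2 : (d : ℝ) ≤ α ^ (v k) + (α ^ (v k)) ^ θ := by
    have := (abs_le.mp hd).2
    linarith
  have h3 : d ≤ ⌈α ^ (v k) + (α ^ (v k)) ^ θ⌉₊ := by exact_mod_cast h2.trans (Nat.le_ceil _)
  exact h3.trans (Finset.le_sup (f := fun k => ⌈α ^ (v k) + (α ^ (v k)) ^ θ⌉₊)
    (Finset.mem_range.mpr hk))

lemma finite_of_noHit {v : ℕ → ℝ} {α θ A : ℝ} {R K : ℕ}
    (h : ∀ k : ℕ, K ≤ k → ∀ d : ℕ, |(d : ℝ) - α ^ (v k)| ≤ (α ^ (v k)) ^ θ → ¬ Hit R A d) :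
    (Solutions R A (Near v α θ)).Finite := by
  obtain ⟨B, hB⟩ := bdd_windows v α θ K
  refine finite_of_bdd (A := A) (B := B) fun t ht => ?_
  obtain ⟨d, ⟨hd0, k, hk⟩, hhit, h1, h2, h3⟩ := hit_of ht
  refine ⟨d, hd0, ?_, h1, h2, h3⟩
  rcases Nat.lt_or_ge k K with hlt | hge
  · exact hB k hlt d hk
  · exact absurd hhit (h k hge d hk)

/-- one dimension bound -/
theorem dim_hit (v : ℕ → ℝ) (hv : Thin v) (A θ s : ℝ) (hA : 0 < A) (hθ0 : 0 ≤ θ) (hθ1 : θ < 1)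
    (hs : 0 < s) :
    ∃ R : ℕ, 1 ≤ R ∧ ∃ E : Set ℝ, dimH E ≤ ENNReal.ofReal s ∧ ∀ α : ℝ, 1 < α → α ∉ E →
      ∃ K : ℕ, ∀ k : ℕ, K ≤ k → ∀ d : ℕ, |(d : ℝ) - α ^ (v k)| ≤ (α ^ (v k)) ^ θ →
        ¬ Hit R A d := by
  have hθ' : 0 < 1 - θ := by linarith
  obtain ⟨R, hR, C, hC, hcount⟩ := Pool.Agent.R437.FC.count A (s * (1 - θ)) hA (by positivity)
  obtain ⟨E, h1, h2⟩ := Pool.Agent.R485.AN.dim_pow {d | Hit R A d} (fun d hd => hd.pos)
    (s := s * (1 - θ)) (by positivity) hθ0 hθ1 (fun ε hε => ⟨C, hC, fun X hX => by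
      refine (hcount X hX).trans ?_
      have : X ^ (s * (1 - θ)) ≤ X ^ (s * (1 - θ) + ε) :=
        Real.rpow_le_rpow_of_exponent_le hX (by linarith)
      exact mul_le_mul_of_nonneg_left this hC⟩) hv
  rw [mul_div_cancel_right₀ _ hθ'.ne'] at h1
  exact ⟨R, hR, E, h1, fun α hα hαE => h2 α hα hαE⟩

/-- the exceptional set of dimension zero -/
theorem dim_zero (v : ℕ → ℝ) (hv : Thin v) :
    ∃ E : Set ℝ, dimH E = 0 ∧ ∀ α : ℝ, 1 < α → α ∉ E → ∀ A θ : ℝ, θ < 1 →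
      ∃ R : ℕ, 1 ≤ R ∧ ∃ K : ℕ, ∀ k : ℕ, K ≤ k → ∀ d : ℕ,
        |(d : ℝ) - α ^ (v k)| ≤ (α ^ (v k)) ^ θ → ¬ Hit R A d := by
  have hl : ∀ l : ℕ, (0 : ℝ) < 1 / ((l : ℝ) + 1) := fun l => by positivity
  have h : ∀ i l j : ℕ, ∃ R : ℕ, 1 ≤ R ∧ ∃ E : Set ℝ,
      dimH E ≤ ENNReal.ofReal (1 / ((j : ℝ) + 1)) ∧
      ∀ α : ℝ, 1 < α → α ∉ E → ∃ K : ℕ, ∀ k : ℕ, K ≤ k → ∀ d : ℕ,
        |(d : ℝ) - α ^ (v k)| ≤ (α ^ (v k)) ^ (1 - 1 / ((l : ℝ) + 1)) →
          ¬ Hit R ((i : ℝ) + 1) d := fun i l j =>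
    dim_hit v hv ((i : ℝ) + 1) (1 - 1 / ((l : ℝ) + 1)) (1 / ((j : ℝ) + 1)) (by positivity)
      (by
        have : 1 / ((l : ℝ) + 1) ≤ 1 := by
          rw [div_le_one (by positivity)]
          have : (0 : ℝ) ≤ l := Nat.cast_nonneg l
          linarith
        linarith) (by linarith [hl l]) (hl j)
  choose R hR E hdim hgood using h
  refine ⟨⋃ i, ⋃ l, ⋂ j, E i l j, ?_, ?_⟩
  · refine le_antisymm ?_ bot_le
    rw [dimH_iUnion]
    refine iSup_le fun i => ?_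
    rw [dimH_iUnion]
    refine iSup_le fun l => ?_
    have hlim : Tendsto (fun j : ℕ => ENNReal.ofReal (1 / ((j : ℝ) + 1))) atTop (𝓝 0) := by
      rw [← ENNReal.ofReal_zero]
      exact ENNReal.tendsto_ofReal tendsto_one_div_add_atTop_nhds_zero_nat
    exact ge_of_tendsto' hlim fun j => (dimH_mono (Set.iInter_subset _ j)).trans (hdim i l j)
  · intro α hα hαE A θ hθ
    obtain ⟨i, hi⟩ := exists_nat_ge A
    obtain ⟨l, hl'⟩ := exists_nat_ge (1 / (1 - θ))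
    have h1 : α ∉ ⋂ j, E i l j := fun hcon =>
      hαE (Set.mem_iUnion.2 ⟨i, Set.mem_iUnion.2 ⟨l, hcon⟩⟩)
    rw [Set.mem_iInter] at h1
    push Not at h1
    obtain ⟨j, hj⟩ := h1
    obtain ⟨K, hK⟩ := hgood i l j α hα hj
    have hα0 : 0 < α := by linarith
    have hθl : θ ≤ 1 - 1 / ((l : ℝ) + 1) := by
      have e1 : 1 / ((l : ℝ) + 1) ≤ 1 - θ := by
        rw [div_le_iff₀ (by positivity)]
        rw [div_le_iff₀ (by linarith)] at hl'
        nlinarith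
      linarith
    have hvt : Tendsto v atTop atTop := Pool.Agent.R485.AN.Thin.tendsto hv
    obtain ⟨K₁, hK₁⟩ := eventually_atTop.1 (hvt.eventually_ge_atTop 0)
    refine ⟨R i l j, hR i l j, max K K₁, fun k hk d hd hhit => ?_⟩
    have hvn : 0 ≤ v k := hK₁ k ((le_max_right _ _).trans hk)
    have h5 : 1 ≤ α ^ (v k) := Real.one_le_rpow hα.le hvn
    have h6 : (α ^ (v k)) ^ θ ≤ (α ^ (v k)) ^ (1 - 1 / ((l : ℝ) + 1)) :=
      Real.rpow_le_rpow_of_exponent_le h5 hθl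
    exact hK k ((le_max_left _ _).trans hk) d (hd.trans h6) (hhit.mono (by linarith))

/-- the values of the solutions with bounded exponents are bounded -/
theorem bounded_exponents (hDG : DarmonGranville) (R : ℕ) : ∃ B : ℕ,
    ∀ x y z p q r : ℕ, 0 < x → 0 < y → 0 < z → Nat.gcd x (Nat.gcd y z) = 1 →
    2 ≤ p → 2 ≤ q → 2 ≤ r → (1 : ℚ) / p + 1 / q + 1 / r < 1 → p < R → q < R → r < R →
      x ^ p + y ^ q = z ^ r → x ^ p * y ^ q * z ^ r ≤ B := by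
  classical
  have hfin : (⋃ w ∈ (range R ×ˢ range R ×ˢ range R : Finset (ℕ × ℕ × ℕ)),
      (fun u : ℕ × ℕ × ℕ => u.1 ^ w.1 * u.2.1 ^ w.2.1 * u.2.2 ^ w.2.2) ''
      {u : ℕ × ℕ × ℕ | (2 ≤ w.1 ∧ 2 ≤ w.2.1 ∧ 2 ≤ w.2.2 ∧
          (1 : ℚ) / w.1 + 1 / w.2.1 + 1 / w.2.2 < 1) ∧
        0 < u.1 ∧ 0 < u.2.1 ∧ 0 < u.2.2 ∧ Nat.gcd u.1 (Nat.gcd u.2.1 u.2.2) = 1 ∧
        u.1 ^ w.1 + u.2.1 ^ w.2.1 = u.2.2 ^ w.2.2}).Finite := by
    refine Set.Finite.biUnion (Finset.finite_toSet _) fun w _ => Set.Finite.image _ ?_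
    by_cases h : 2 ≤ w.1 ∧ 2 ≤ w.2.1 ∧ 2 ≤ w.2.2 ∧ (1 : ℚ) / w.1 + 1 / w.2.1 + 1 / w.2.2 < 1
    · exact (hDG w.1 w.2.1 w.2.2 h.1 h.2.1 h.2.2.1 h.2.2.2).subset fun u hu => hu.2
    · convert Set.finite_empty
      ext u
      simp only [Set.mem_ofPred_eq, Set.mem_empty_iff_false, iff_false]
      exact fun hu => h hu.1
  obtain ⟨B, hB⟩ := hfin.bddAbove
  refine ⟨B, fun x y z p q r hx hy hz hg hp hq hr hpqr hpR hqR hrR he => ?_⟩
  apply hB
  simp only [Set.mem_iUnion]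
  exact ⟨(p, q, r), by simp [hpR, hqR, hrR], (x, y, z), ⟨⟨hp, hq, hr, hpqr⟩, hx, hy, hz, hg, he⟩, rfl⟩

lemma rad_one : rad 1 = 1 := by simp [rad]

theorem part_three (hDG : DarmonGranville) (v : ℕ → ℝ) (hv : Thin v) :
    ∃ E : Set ℝ, dimH E = 0 ∧ ∀ α : ℝ, 1 < α → α ∉ E → ∀ A θ : ℝ, θ < 1 →
      (FermatCatalan A (Near v α θ)).Finite := by
  obtain ⟨E, hE, h⟩ := dim_zero v hv
  refine ⟨E, hE, fun α hα hαE A θ hθ => ?_⟩
  obtain ⟨R, hR, K, hK⟩ := h α hα hαE A θ hθ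
  obtain ⟨B, hB⟩ := bdd_windows v α θ K
  obtain ⟨B', hB'⟩ := bounded_exponents hDG R
  refine finite_of_bdd (A := A) (B := max B B') fun t ht => ?_
  obtain ⟨d, ⟨hd0, k, hk⟩, x, y, z, p, q, r, hx, hy, hz, hg, hp, hq, hr, hpqr, rfl, he, hdvd, hht⟩ :=
    ht
  simp only at he hdvd hht
  refine ⟨d, hd0, ?_, by simp only; omega, by simp only; omega, hht⟩
  by_cases hRe : R ≤ p ∨ R ≤ q ∨ R ≤ r
  · rcases Nat.lt_or_ge k K with hlt | hge
    · exact (hB k hlt d hk).trans (le_max_left _ _)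
    · exfalso
      have hd1 : (1 : ℝ) ≤ d := by exact_mod_cast hd0
      have h1 : ((Pool.Agent.W232.FC.rad 1 : ℕ) : ℝ) ≤ (d : ℝ) ^ (1 / (R : ℝ)) := by
        rw [Pool.Agent.W232.FC.rad_one, Nat.cast_one]
        exact Real.one_le_rpow hd1 (by positivity)
      exact hK k hge d hk ⟨1, 1, 1, x, y, z, p, q, r,
        ⟨one_pos, one_pos, one_pos, hx, hy, hz⟩, ⟨hp, hq, hr⟩, hRe, ⟨h1, h1, h1⟩,
        by simpa using he, by simpa using hdvd, by simpa using hht⟩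
  · push Not at hRe
    have h1 := hB' x y z p q r hx hy hz hg hp hq hr hpqr hRe.1 hRe.2.1 hRe.2.2 he
    have h2 : d ≤ x ^ p * y ^ q * z ^ r := Nat.le_of_dvd (by positivity) hdvd
    exact (h2.trans h1).trans (le_max_right _ _)

theorem thin_pow (δ : ℝ) (hδ : 0 < δ) : Thin (fun n : ℕ => ((n : ℝ) + 1) ^ δ) := by
  intro t ht
  have h1 := isLittleO_exp_neg_mul_rpow_atTop ht (-(2 / δ))
  have h2 : Tendsto (fun n : ℕ => ((n : ℝ) + 1) ^ δ) atTop atTop :=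
    (tendsto_rpow_atTop hδ).comp
      (tendsto_atTop_add_const_right _ _ tendsto_natCast_atTop_atTop)
  have h3 := (h1.comp_tendsto h2).isBigO
  refine summable_of_isBigO_nat (g := fun n : ℕ => ((n : ℝ) + 1) ^ (-2 : ℝ)) ?_ ?_
  · have h4 : Summable (fun n : ℕ => ((n : ℝ)) ^ (-2 : ℝ)) := by
      rw [Real.summable_nat_rpow]
      norm_num
    have h5 := (summable_nat_add_iff 1).2 h4
    refine h5.congr fun n => ?_
    push_cast
    rfl
  · refine (h3.congr_left fun n => ?_).congr_right fun n => ?_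
    · simp only [Function.comp_apply]
      congr 1
      ring
    · simp only [Function.comp_apply]
      have : (0 : ℝ) ≤ (n : ℝ) + 1 := by positivity
      rw [← Real.rpow_mul this]
      congr 1
      field_simp

theorem thin_id : Thin (fun n : ℕ => (n : ℝ)) := by
  intro t ht
  have h1 : Summable (fun n : ℕ => (Real.exp (-t)) ^ n) :=
    summable_geometric_of_lt_one (Real.exp_pos _).le (by rw [Real.exp_lt_one_iff]; linarith)
  refine h1.congr fun n => ?_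
  rw [← Real.exp_nat_mul]
  congr 1
  ring

/-- **Solutions with a divisor near a power of `α`.** (1) For all exponents `v k` such that the sums
of `exp (-t v k)` converge for all `t > 0`, all `A > 0`, `0 ≤ θ < 1` and `s > 0` there are `R` and a
set `E` of Hausdorff dimension at most `s` such that for every real `α > 1` outside `E` only finitely
many triples are `Solutions R A (Near v α θ)`. (2) There is a set `E` of Hausdorff dimension zero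
such that for every real `α > 1` outside `E`, every `A` and every `θ < 1` there is `R` such that
only finitely many triples are `Solutions R A (Near v α θ)`. (3) If the theorem of Darmon and
Granville holds then there is a set `E` of Hausdorff dimension zero such that for every real
`α > 1` outside `E`, every `A` and every `θ < 1` only finitely many triples are
`FermatCatalan A (Near v α θ)`. (4) The exponents `v k = k` and `v k = (k + 1) ^ δ`, `δ > 0`, have the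
required property. -/
theorem result :
    (∀ v : ℕ → ℝ, Thin v → ∀ A θ s : ℝ, 0 < A → 0 ≤ θ → θ < 1 → 0 < s →
      ∃ R : ℕ, 1 ≤ R ∧ ∃ E : Set ℝ, dimH E ≤ ENNReal.ofReal s ∧ ∀ α : ℝ, 1 < α → α ∉ E →
        (Solutions R A (Near v α θ)).Finite) ∧
    (∀ v : ℕ → ℝ, Thin v → ∃ E : Set ℝ, dimH E = 0 ∧ ∀ α : ℝ, 1 < α → α ∉ E →
      ∀ A θ : ℝ, θ < 1 → ∃ R : ℕ, 1 ≤ R ∧ (Solutions R A (Near v α θ)).Finite) ∧
    (DarmonGranville → ∀ v : ℕ → ℝ, Thin v → ∃ E : Set ℝ, dimH E = 0 ∧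
      ∀ α : ℝ, 1 < α → α ∉ E → ∀ A θ : ℝ, θ < 1 → (FermatCatalan A (Near v α θ)).Finite) ∧
    Thin (fun n : ℕ => (n : ℝ)) ∧ (∀ δ : ℝ, 0 < δ → Thin (fun n : ℕ => ((n : ℝ) + 1) ^ δ)) := by
  refine ⟨?_, ?_, fun hDG v hv => part_three hDG v hv, thin_id, thin_pow⟩
  · intro v hv A θ s hA h0 h1 hs
    obtain ⟨R, hR, E, hE, h⟩ := dim_hit v hv A θ s hA h0 h1 hs
    refine ⟨R, hR, E, hE, fun α hα hαE => ?_⟩
    obtain ⟨K, hK⟩ := h α hα hαE
    exact finite_of_noHit hK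
  · intro v hv
    obtain ⟨E, hE, h⟩ := dim_zero v hv
    refine ⟨E, hE, fun α hα hαE A θ hθ => ?_⟩
    obtain ⟨R, hR, K, hK⟩ := h α hα hαE A θ hθ
    exact ⟨R, hR, finite_of_noHit hK⟩

end Pool.Agent.Results.MP_509488_nt.SolutionsNearPowers
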